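import Mathlib

set_option maxHeartbeats 1000000

/-!
# 2-near perfect numbers of the form `2 ^ k * p ^ m` with `m ≥ 2`

A positive integer `n` is 2-near perfect if `σ(n) = 2 n + d₁ + d₂` for two distinct divisors
`d₁, d₂` of `n`.  We determine all 2-near perfect numbers `2 ^ k * p ^ m` with `p` prime and
`m ≥ 2`: they are `18, 36, 200` and the numbers `2 ^ k * p ^ 3` with `p = 2 ^ (k + 1) - 1` a
Mersenne prime (the omitted divisors are then `p` and `p ^ 2`).
-/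

namespace Pool.Agent.Results.MP_d695ac_nt.Classification

/-! ### Integer lemmas.  Throughout `x = 2 ^ (k + 1)`, `A = 2 ^ a₁`, `B = 2 ^ a₂`. -/

lemma z_ge {p x A z : ℤ} (po : p % 2 = 1) (hA : 1 ≤ A) (hx : x = z * A)
    (hz : z % 2 = 0) (hW : (p - 1) * A < x) : p + 1 ≤ z := by
  have h1 : p - 1 < z := by
    by_contra h
    push Not at h
    nlinarith
  omega

lemma two_x {p x A z W : ℤ} (hp : 3 ≤ p) (po : p % 2 = 1) (hA : 1 ≤ A) (hx : x = z * A)
    (hz : z % 2 = 0) (hW : W = x - p - (p - 1) * A) (hW1 : 1 ≤ W) :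
    2 * x ≤ (p + 1) * (p + W) ∧ 2 * A ≤ p + W := by
  have h1 : p + 1 ≤ z := z_ge po hA hx hz (by linarith)
  have h2 : p + W = A * (z - p + 1) := by rw [hW, hx]; ring
  constructor
  · rw [h2, hx]
    have h3 : 0 ≤ A * (p - 1) * (z - (p + 1)) := by
      apply mul_nonneg
      · apply mul_nonneg <;> linarith
      · linarith
    nlinarith
  · rw [h2]
    nlinarith


/-- `b₁ = m`, `b₂ ≤ m - 3`. -/
lemma case_big {p x A z W Q d : ℤ} (hp : 3 ≤ p) (po : p % 2 = 1) (hA : 1 ≤ A) (hx : x = z * A)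
    (hz : z % 2 = 0) (hW : W = x - p - (p - 1) * A) (hW1 : 1 ≤ W) (hQ : 1 ≤ Q)
    (hd : 2 * d ≤ x * Q) (hxp : p < x)
    (E : p ^ 3 * Q * W = (x - 1) + (p - 1) * d) : False := by
  have h2 := (two_x hp po hA hx hz hW hW1).1
  have h3 : 2 * (p ^ 3 * Q * W) < (p + 1) * x * Q := by
    rw [E]
    have : (p - 1) * (2 * d) ≤ (p - 1) * (x * Q) := by
      apply mul_le_mul_of_nonneg_left hd; linarith
    nlinarith [mul_le_mul_of_nonneg_left hQ (by linarith : (0:ℤ) ≤ x)]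
  have h4 : 2 * (p ^ 3 * W) < (p + 1) * x := by
    by_contra h
    push Not at h
    have := mul_le_mul_of_nonneg_right h (by linarith : (0:ℤ) ≤ Q)
    nlinarith
  have h5 : p + W ≤ (p + 1) * W := by nlinarith
  have h6 : 4 * (p ^ 3 * W) < (p + 1) ^ 2 * ((p + 1) * W) := by
    have h7 : (p + 1) * (2 * x) ≤ (p + 1) * ((p + 1) * (p + W)) := by
      apply mul_le_mul_of_nonneg_left h2; linarith
    have h8 : (p + 1) ^ 2 * (p + W) ≤ (p + 1) ^ 2 * ((p + 1) * W) := by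
      apply mul_le_mul_of_nonneg_left h5; positivity
    nlinarith
  have h9 : (p + 1) ^ 3 ≤ 4 * p ^ 3 := by nlinarith [sq_nonneg (p - 3), mul_nonneg (by linarith : (0:ℤ) ≤ p) (sq_nonneg (p-3))]
  have h10 : (p + 1) ^ 3 * W ≤ 4 * p ^ 3 * W := mul_le_mul_of_nonneg_right h9 (by linarith)
  nlinarith

/-- `b₁ = m`, `b₂ = m - 2`. -/
lemma case_two {p x A z W Q B : ℤ} (hp : 3 ≤ p) (po : p % 2 = 1) (hA : 1 ≤ A) (hx : x = z * A)
    (hz : z % 2 = 0) (hW : W = x - p - (p - 1) * A) (hW1 : 1 ≤ W) (hQ : 1 ≤ Q)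
    (hB : 2 * B ≤ x) (hxp : p < x)
    (E : p ^ 3 * Q * W = (x - 1) + (p - 1) * (B * (p * Q))) : False := by
  obtain ⟨h2, h2'⟩ := two_x hp po hA hx hz hW hW1
  obtain ⟨u, hu⟩ : ∃ u, u = p ^ 2 * W - (p - 1) * B := ⟨_, rfl⟩
  have hxu : x - 1 = p * Q * u := by rw [hu]; linarith
  have hpQ : 1 ≤ p * Q := by nlinarith
  have hu1 : 1 ≤ u := by
    by_contra h
    push Not at h
    nlinarith
  have hpu : p * u ≤ x - 1 := by
    rw [hxu]
    nlinarith [mul_le_mul_of_nonneg_left hQ (by nlinarith : (0:ℤ) ≤ p * u)]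
  have h3 : 2 * p ^ 3 * W < (p ^ 2 - p + 2) * x := by
    have h4 : p ^ 3 * W = p * u + p * (p - 1) * B := by rw [hu]; ring
    have h5 : p * (p - 1) * (2 * B) ≤ p * (p - 1) * x := by
      apply mul_le_mul_of_nonneg_left hB; nlinarith
    nlinarith
  have h6 : W < p := by
    by_contra h
    push Not at h
    have h7 : (p ^ 2 - p + 2) * (2 * x) ≤ (p ^ 2 - p + 2) * ((p + 1) * (p + W)) := by
      apply mul_le_mul_of_nonneg_left h2; nlinarith
    have h8 : (p ^ 2 - p + 2) * (p + 1) * (p + W) ≤ (p ^ 2 - p + 2) * (p + 1) * (2 * W) := by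
      apply mul_le_mul_of_nonneg_left (by linarith); nlinarith
    have h9 : (p ^ 2 - p + 2) * (p + 1) = p ^ 3 + p + 2 := by ring
    rw [h9] at h8
    have h10 : p ^ 3 + p + 2 ≤ 2 * p ^ 3 := by nlinarith [sq_nonneg (p - 1), mul_nonneg (by linarith : (0:ℤ) ≤ p) (sq_nonneg (p-1))]
    have h11 := mul_le_mul_of_nonneg_right h10 (by linarith : (0:ℤ) ≤ 2 * W)
    nlinarith
  have h12 : A < p := by linarith
  have h13 : p ∣ W - A - 1 := by
    have : W - A - 1 = p * (Q * u - 1 - A) := by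
      have : x = p + W + (p - 1) * A := by rw [hW]; ring
      nlinarith
    exact ⟨_, this⟩
  have h14 : W = A + 1 := by
    obtain ⟨c, hc⟩ := h13
    have : c = 0 := by
      by_contra hc0
      rcases lt_or_gt_of_ne hc0 with h | h
      · nlinarith
      · nlinarith
    rw [this] at hc
    linarith
  have h15 : x = 1 + p * (1 + A) := by
    have : x = p + W + (p - 1) * A := by rw [hW]; ring
    rw [this, h14]; ring
  have h16 : p * u ≤ p * (1 + A) := by linarith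
  have h17 : u ≤ 1 + A := le_of_mul_le_mul_left h16 (by linarith)
  have h18 : (p - 1) * B = p ^ 2 * (A + 1) - u := by rw [hu, h14]; ring
  have h19 : (p - 1) * ((p + 1) * (A + 1)) ≤ (p - 1) * B := by rw [h18]; nlinarith
  have h20 : (p + 1) * (A + 1) ≤ B := le_of_mul_le_mul_left h19 (by linarith)
  nlinarith

/-- `b₁ = m`, `b₂ = m - 1`, `A = y B`. -/
lemma case_one_a {p x A B z y W u : ℤ} (hp : 3 ≤ p) (po : p % 2 = 1) (hB : 1 ≤ B)
    (hy : 1 ≤ y) (hA : A = y * B) (hx : x = z * A)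
    (hz : z % 2 = 0) (hW : W = x - p - (p - 1) * A)
    (hu : u = p * W - (p - 1) * B) (hu1 : 1 ≤ u)
    (hpos : 0 < p * A + B - x) : False := by
  have I1 : x - u - p ^ 2 = (p - 1) * (p * A + B - x) := by rw [hu, hW]; ring
  have h1 : p * A + B - x = B * (y * (p - z) + 1) := by rw [hx, hA]; ring
  have h2 : 0 < y * (p - z) + 1 := by
    by_contra h
    push Not at h
    nlinarith
  have h3 : 0 ≤ p - z := by
    by_contra h
    push Not at h
    nlinarith
  have h4 : 1 ≤ p - z := by omega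
  have h5 : (p - 1) * (B * (y * (p - z) + 1)) < z * y * B := by
    rw [← h1, ← I1]
    have : x = z * y * B := by rw [hx, hA]; ring
    nlinarith
  have h6 : (p - 1) * (y * (p - z) + 1) < z * y := by
    by_contra h
    push Not at h
    nlinarith [mul_le_mul_of_nonneg_right h (by linarith : (0:ℤ) ≤ B)]
  have h7 : 0 ≤ p * y * ((p - z) - 1) := by
    apply mul_nonneg
    · nlinarith
    · linarith
  nlinarith

/-- `b₁ = m`, `b₂ = m - 1`, `B = y A` with `y ≥ 2`. -/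
lemma case_one_b {p x A B z y M W u : ℤ} (hp : 3 ≤ p) (hA : 1 ≤ A)
    (hy : 2 ≤ y) (hB : B = y * A) (hx : x = z * B) (hz : 2 ≤ z)
    (hW : W = x - p - (p - 1) * A)
    (hu : u = p * W - (p - 1) * B) (hu1 : 1 ≤ u) (hM : x - 1 = M * u)
    (hM2 : M = p ^ 2 ∨ p ^ 3 ≤ M)
    (hpos : 0 < p * A + B - x) : False := by
  have I1 : x - u - p ^ 2 = (p - 1) * (p * A + B - x) := by rw [hu, hW]; ring
  obtain ⟨c, hc⟩ : ∃ c, c = p + y - z * y := ⟨_, rfl⟩
  have h1 : p * A + B - x = A * c := by rw [hx, hB, hc]; ring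
  have hc1 : 1 ≤ c := by
    by_contra h
    push Not at h
    nlinarith
  have hxA : x = A * (z * y) := by rw [hx, hB]; ring
  have h5 : (p - 1) * (A * c) < A * (z * y) := by
    rw [← h1, ← I1, ← hxA]
    nlinarith
  have h6 : (p - 1) * c < z * y := by
    by_contra h
    push Not at h
    nlinarith [mul_le_mul_of_nonneg_right h (by linarith : (0:ℤ) ≤ A)]
  have h7 : p * c < p + y := by
    have : z * y = p + y - c := by linarith
    rw [this] at h6
    linarith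
  have h8 : y ≤ p - c := by nlinarith
  have hc2 : c = 1 := by
    have : c < 2 := by
      by_contra h
      push Not at h
      nlinarith
    omega
  have h9 : z * y = p + y - 1 := by linarith
  have hBu : B = u + p ^ 2 := by
    have : (p - 1) * A = x - u - p ^ 2 := by rw [I1, h1, hc2]; ring
    have h10 : x = A * (p + y - 1) := by rw [hxA, h9]
    rw [hB]
    nlinarith
  have h10 : u * (M - z) = z * p ^ 2 - 1 := by
    have : x = z * (u + p ^ 2) := by rw [hx, hBu]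
    nlinarith
  have h11 : 2 * z ≤ p + 1 := by
    have : (z - 1) * y = p - 1 := by linarith
    nlinarith
  rcases hM2 with h | h
  · rw [h] at h10
    have h12 : (u - z) * (p ^ 2 - z) = z ^ 2 - 1 := by linarith
    have h13 : 0 < p ^ 2 - z := by nlinarith
    have h14 : z + 1 ≤ u := by
      by_contra h'
      push Not at h'
      nlinarith
    have e1 : p ^ 2 - z ≤ z ^ 2 - 1 := by
      rw [← h12]
      exact le_mul_of_one_le_left h13.le (by linarith)
    have e2 : (2 * z) * (2 * z) ≤ (p + 1) * (p + 1) :=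
      mul_self_le_mul_self (by linarith) h11
    have e3 : 0 ≤ (p - 3) * p := mul_nonneg (by linarith) (by linarith)
    nlinarith
  · have e0 : 0 ≤ p * ((p - 3) * (p + 3)) :=
      mul_nonneg (by linarith) (mul_nonneg (by linarith) (by linarith))
    have h13 : 0 < M - z := by linarith
    have h14 : M - z ≤ z * p ^ 2 - 1 := by
      rw [← h10]
      exact le_mul_of_one_le_left h13.le hu1
    have e1 := mul_le_mul_of_nonneg_right h11 (by positivity : (0:ℤ) ≤ p ^ 2 + 1)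
    have e2 : 0 ≤ p ^ 2 * (p - 3) := mul_nonneg (sq_nonneg p) (by linarith)
    have e3 : 0 ≤ p * (p - 3) := mul_nonneg (by linarith) (by linarith)
    linarith

/-- Positivity used in the case `b₁ = m`, `b₂ = m - 1`. -/
lemma one_pos' {p x A B M W u : ℤ} (hp : 3 ≤ p) (po : p % 2 = 1) (hx4 : x % 4 = 0)
    (hW : W = x - p - (p - 1) * A)
    (hu : u = p * W - (p - 1) * B) (hu1 : 1 ≤ u) (hM : x - 1 = M * u)
    (hM2 : M = p ^ 2 ∨ p ^ 3 ≤ M) : 0 < p * A + B - x := by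
  have I1 : x - u - p ^ 2 = (p - 1) * (p * A + B - x) := by rw [hu, hW]; ring
  have h1 : 0 < x - u - p ^ 2 := by
    rcases hM2 with h | h
    · have hu2 : 2 ≤ u := by
        by_contra h'
        have : u = 1 := by omega
        rw [this, h] at hM
        have : x = p ^ 2 + 1 := by linarith
        have hp2 : p ^ 2 % 4 = 1 := by
          have : p % 4 = 1 ∨ p % 4 = 3 := by omega
          rcases this with h | h <;> simp [pow_two, Int.mul_emod, h]
        omega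
      have : x = 1 + p ^ 2 * u := by rw [← h]; linarith
      have e1 : (p ^ 2 - 1) * 2 ≤ (p ^ 2 - 1) * u :=
        mul_le_mul_of_nonneg_left hu2 (by nlinarith)
      have e2 : 9 ≤ p ^ 2 := by nlinarith
      linarith
    · have : x = 1 + M * u := by linarith
      nlinarith [mul_le_mul_of_nonneg_right h (by linarith : (0:ℤ) ≤ u), mul_nonneg (by linarith : (0:ℤ) ≤ p) (sq_nonneg (p-3)), mul_le_mul_of_nonneg_left hu1 (by positivity : (0:ℤ) ≤ p^2)]
  rw [I1] at h1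
  by_contra h'
  push Not at h'
  nlinarith

/-- `b₁ = b₂ = m`, `A = y B` with `y ≥ 2`. -/
lemma case_zero {p x A B z y M W u : ℤ} (hp : 3 ≤ p) (po : p % 2 = 1) (hB : 1 ≤ B)
    (hy : 2 ≤ y) (hA : A = y * B) (hx : x = z * A)
    (hz : z % 2 = 0) (hW : W = x - p - (p - 1) * A)
    (hu : u = W - (p - 1) * B) (hu1 : 1 ≤ u) (hM : x - 1 = M * u)
    (hM2 : p ^ 3 ≤ M) : False := by
  obtain ⟨c, hc⟩ : ∃ c, c = z * y - (p - 1) * (y + 1) := ⟨_, rfl⟩
  have h1 : p + u = B * c := by rw [hu, hW, hx, hA, hc]; ring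
  have hc1 : 1 ≤ c := by
    by_contra h
    push Not at h
    nlinarith
  have hceven : c % 2 = 0 := by
    have h2 : (z * y) % 2 = 0 := by rw [Int.mul_emod, hz]; simp
    have h3 : ((p - 1) * (y + 1)) % 2 = 0 := by
      rw [Int.mul_emod]
      have : (p - 1) % 2 = 0 := by omega
      rw [this]; simp
    omega
  have hc2 : 2 ≤ c := by omega
  have hzp : p + 1 ≤ z := by
    have : p - 1 < z := by
      by_contra h
      push Not at h
      nlinarith
    omega
  have hc3 : 2 * y - (p - 1) ≤ c := by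
    rw [hc]
    nlinarith
  have h2 : (M - 1) * u = (p - 1) * (B * (y + 1) + 1) := by
    have : x = p + u + (p - 1) * A + (p - 1) * B := by rw [hu, hW]; ring
    have h3 : x - 1 - u = (p - 1) * (B * (y + 1) + 1) := by rw [this, hA]; ring
    linarith
  have h3 : (p - 1) * ((p ^ 2 + p + 1) * u) ≤ (p - 1) * (B * (y + 1) + 1) := by
    rw [← h2]
    have : (p - 1) * ((p ^ 2 + p + 1) * u) = (p ^ 3 - 1) * u := by ring
    rw [this]
    apply mul_le_mul_of_nonneg_right <;> linarith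
  have h4 : (p ^ 2 + p + 1) * u ≤ B * (y + 1) + 1 := le_of_mul_le_mul_left h3 (by linarith)
  have h5 : 2 * (y + 1) ≤ c + p + 1 := by linarith
  have h6 : 2 * c * ((p ^ 2 + p + 1) * u - 1) ≤ (p + u) * (c + p + 1) := by
    have h7 : c * ((p ^ 2 + p + 1) * u - 1) ≤ c * (B * (y + 1)) := by
      apply mul_le_mul_of_nonneg_left <;> linarith
    have h8 : c * (B * (y + 1)) = (p + u) * (y + 1) := by rw [h1]; ring
    have h9 : (p + u) * (2 * (y + 1)) ≤ (p + u) * (c + p + 1) := by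
      apply mul_le_mul_of_nonneg_left h5; linarith
    nlinarith
  have h7 : c * (2 * (p ^ 2 + p + 1) * u - 2 - p - u) ≤ (p + u) * (p + 1) := by nlinarith
  have h8 : 0 ≤ 2 * (p ^ 2 + p + 1) * u - 2 - p - u := by nlinarith
  have h9 : 2 * (2 * (p ^ 2 + p + 1) * u - 2 - p - u) ≤ (p + u) * (p + 1) :=
    le_trans (mul_le_mul_of_nonneg_right hc2 h8) h7
  nlinarith

/-- `b₁, b₂ ≤ m - 2` (`N = p ^ (m - 2)`). -/
lemma case_small {p x N D : ℤ} (hp : 3 ≤ p) (hxp : p < x) (hN : p ≤ N) (hD : D < x * N)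
    (E : p ^ 2 * N * (x - p) = (x - 1) + (p - 1) * D) : False := by
  have h1 : p ^ 2 * N * (x - p) < (x - 1) + (p - 1) * (x * N) := by
    rw [E]
    have := mul_lt_mul_of_pos_left hD (by linarith : (0:ℤ) < p - 1)
    linarith
  obtain ⟨t, ht⟩ : ∃ t, t = x - p - 1 := ⟨_, rfl⟩
  have hx : x = t + p + 1 := by linarith
  have ht0 : 0 ≤ t := by omega
  rw [hx] at h1
  have h2 : N * ((p ^ 2 - p + 1) * t + 1) < t + p := by nlinarith
  have h3 : p * ((p ^ 2 - p + 1) * t + 1) ≤ N * ((p ^ 2 - p + 1) * t + 1) := by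
    apply mul_le_mul_of_nonneg_right hN
    have : 0 ≤ (p ^ 2 - p + 1) * t := by
      apply mul_nonneg _ ht0
      nlinarith
    linarith
  have h4 : 0 ≤ (p - 1) * (p ^ 2 + 1) * t := by
    apply mul_nonneg _ ht0
    apply mul_nonneg
    · linarith
    · positivity
  linarith

/-- `b₁ = b₂ = m - 1` (`M = p ^ (m - 1)`). -/
lemma case_mid {p x M A B : ℤ} (hp : 3 ≤ p) (hxp : p < x) (hM : p ^ 2 ≤ M) (hD : A + B ≤ x - 1)
    (E : p * M * (x - p) = (x - 1) + (p - 1) * ((A + B) * M)) : False := by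
  obtain ⟨v, hv⟩ : ∃ v, v = p * (x - p) - (p - 1) * (A + B) := ⟨_, rfl⟩
  have hxv : x - 1 = M * v := by rw [hv]; linarith
  have hM1 : 1 ≤ M := by nlinarith
  have hv1 : 1 ≤ v := by
    by_contra h
    push Not at h
    nlinarith
  have hv2 : (x - 1) - (p ^ 2 - p) ≤ v := by
    rw [hv]
    have := mul_le_mul_of_nonneg_left hD (by linarith : (0:ℤ) ≤ p - 1)
    linarith
  have h1 : p ^ 2 ≤ x - 1 := by rw [hxv]; nlinarith
  have h2 : p ^ 2 * ((x - 1) - (p ^ 2 - p)) ≤ x - 1 := by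
    rw [hxv] at *
    nlinarith [mul_le_mul_of_nonneg_right hM (by linarith : (0:ℤ) ≤ v), mul_le_mul_of_nonneg_left hv2 (by positivity : (0:ℤ) ≤ p ^ 2)]
  have h3 : (x - 1) * (p + 1) ≤ p ^ 3 := by
    have : (p - 1) * ((x - 1) * (p + 1)) ≤ (p - 1) * p ^ 3 := by nlinarith
    exact le_of_mul_le_mul_left this (by linarith)
  nlinarith


/-- `b₁ = m - 1`, `b₂ ≤ m - 2` (with `m = n + 3`). -/
lemma case_c2b {p x A B : ℤ} {n b : ℕ} (hp : 3 ≤ p) (hxp : p < x) (hA : 1 ≤ A) (hB : 1 ≤ B)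
    (hA2 : 2 * A ≤ x) (hB2 : 2 * B ≤ x) (hb : b ≤ n + 1)
    (E : p ^ (n + 3) * (x - p) = (x - 1) + (p - 1) * (A * p ^ (n + 2) + B * p ^ b)) :
    n = 0 ∧ x = p + 1 := by
  have hpn : 1 ≤ p ^ n := one_le_pow₀ (by linarith)
  obtain ⟨M, hM⟩ : ∃ M, M = p ^ (n + 1) := ⟨_, rfl⟩
  have hMp : p ≤ M := by rw [hM, pow_succ]; nlinarith
  have hbM : p ^ b ≤ M := by rw [hM]; exact pow_le_pow_right₀ (by linarith) hb
  have hb1 : 1 ≤ p ^ b := one_le_pow₀ (by linarith)
  have e3 : p ^ (n + 3) = p ^ 2 * M := by rw [hM]; ring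
  have e2 : p ^ (n + 2) = p * M := by rw [hM]; ring
  have hx2 : x < 2 * p := by
    by_contra h
    push Not at h
    rw [e3, e2] at E
    have h1 : 2 * (A * (p * M)) ≤ x * (p * M) := by
      have := mul_le_mul_of_nonneg_right hA2 (by nlinarith : (0:ℤ) ≤ p * M)
      linarith
    have h2 : 2 * (B * p ^ b) ≤ x * M := by
      calc 2 * (B * p ^ b) = (2 * B) * p ^ b := by ring
        _ ≤ x * p ^ b := mul_le_mul_of_nonneg_right hB2 (by linarith)
        _ ≤ x * M := mul_le_mul_of_nonneg_left hbM (by linarith)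
    have h3 : (p - 1) * (2 * (A * (p * M) + B * p ^ b)) ≤ (p - 1) * (x * (p * M) + x * M) := by
      apply mul_le_mul_of_nonneg_left <;> linarith
    have h4 : M * ((p ^ 2 + 1) * x - 2 * p ^ 3) ≤ 2 * (x - 1) := by nlinarith
    have h5 : 0 ≤ (p ^ 2 + 1) * x - 2 * p ^ 3 := by nlinarith
    have h6 : p * ((p ^ 2 + 1) * x - 2 * p ^ 3) ≤ 2 * (x - 1) :=
      le_trans (mul_le_mul_of_nonneg_right hMp h5) h4
    have h7 : 0 ≤ (p ^ 3 + p - 2) * (x - 2 * p) := by
      apply mul_nonneg _ (by linarith)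
      nlinarith [mul_nonneg (by linarith : (0:ℤ) ≤ p) (sq_nonneg p)]
    nlinarith [sq_nonneg (p - 1)]
  obtain ⟨g, hg⟩ : ∃ g, g = p * (x - p) - (p - 1) * A := ⟨_, rfl⟩
  have E2 : p ^ (n + 2) * g = (x - 1) + (p - 1) * (B * p ^ b) := by
    have : p ^ (n + 3) = p ^ (n + 2) * p := by ring
    rw [hg]
    rw [this] at E
    linarith
  have hp2 : 1 ≤ p ^ (n + 2) := one_le_pow₀ (by linarith)
  have hpos : 0 < (p - 1) * (B * p ^ b) := by
    apply mul_pos (by linarith)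
    apply mul_pos <;> linarith
  have hg1 : 1 ≤ g := by
    by_contra h
    push Not at h
    nlinarith
  rcases Nat.eq_zero_or_pos b with hb0 | hb0
  · exfalso
    rw [hb0, pow_zero, mul_one] at E2
    have h1 : p ^ 2 ≤ p ^ (n + 2) := pow_le_pow_right₀ (by linarith) (by omega)
    have h2 : p ^ (n + 2) ≤ p ^ (n + 2) * g := le_mul_of_one_le_right (by linarith) hg1
    have h3 : B ≤ p - 1 := by omega
    have h4 : (p - 1) * B ≤ (p - 1) * (p - 1) := mul_le_mul_of_nonneg_left h3 (by linarith)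
    nlinarith
  · obtain ⟨c, rfl⟩ : ∃ c, b = c + 1 := ⟨b - 1, by omega⟩
    have ht : x = p + 1 := by
      have h1 : x - p - 1 = p * (p ^ (n + 1) * g - 1 - (p - 1) * (B * p ^ c)) := by
        have : p ^ (n + 2) = p * p ^ (n + 1) := by ring
        rw [this] at E2
        have h5 : p ^ (c + 1) = p * p ^ c := by ring
        rw [h5] at E2
        linarith
      obtain ⟨w, hw⟩ : ∃ w, w = p ^ (n + 1) * g - 1 - (p - 1) * (B * p ^ c) := ⟨_, rfl⟩
      rw [← hw] at h1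
      have h2 : w = 0 := by
        by_contra h0
        rcases lt_or_gt_of_ne h0 with h | h
        · nlinarith
        · nlinarith
      rw [h2] at h1
      linarith
    have hA1 : A = 1 := by
      by_contra h
      have : 2 ≤ A := by omega
      rw [ht] at hg
      nlinarith
    have hg2 : g = 1 := by rw [hg, ht, hA1]; ring
    have E3 : p ^ (n + 1) = 1 + (p - 1) * (B * p ^ c) := by
      have h5 : p * p ^ (n + 1) = p * (1 + (p - 1) * (B * p ^ c)) := by
        rw [ht, hg2] at E2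
        have h6 : p ^ (n + 2) = p * p ^ (n + 1) := by ring
        have h7 : p ^ (c + 1) = p * p ^ c := by ring
        rw [h6, h7] at E2
        linarith
      exact mul_left_cancel₀ (by linarith) h5
    have hc : c = 0 := by
      by_contra h0
      obtain ⟨c', rfl⟩ : ∃ c', c = c' + 1 := ⟨c - 1, by omega⟩
      have h5 : p * (p ^ n - (p - 1) * (B * p ^ c')) = 1 := by
        have h6 : p ^ (n + 1) = p * p ^ n := by ring
        have h7 : p ^ (c' + 1) = p * p ^ c' := by ring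
        rw [h6, h7] at E3
        linarith
      have h6 : p ∣ 1 := ⟨_, h5.symm⟩
      have := Int.le_of_dvd one_pos h6
      linarith
    rw [hc, pow_zero, mul_one] at E3
    refine ⟨?_, ht⟩
    by_contra h0
    have h1 : p ^ 2 ≤ p ^ (n + 1) := pow_le_pow_right₀ (by linarith) (by omega)
    have h2 : (p - 1) * (2 * B) ≤ (p - 1) * (p + 1) := by
      apply mul_le_mul_of_nonneg_left <;> linarith
    nlinarith

/-! ### The case `m = 2`. -/

/-- `b₁ = b₂ = 0`. -/
lemma two_00 {p x A B y z : ℤ} (hp : 3 ≤ p) (hxp : p < x) (hB : 1 ≤ B)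
    (hy : 2 ≤ y) (hA : A = y * B) (hx : x = z * A) (hz : 2 ≤ z)
    (E : (x - 1) * (p + 1) = p ^ 2 + A + B) : p = 3 ∧ x = 4 := by
  have h1 : 2 * B ≤ A := by rw [hA]; nlinarith
  have h2 : 2 * A ≤ x := by rw [hx]; nlinarith
  have h3 : (x - 1) * p ≤ p * p := by nlinarith
  have h4 : x - 1 ≤ p := le_of_mul_le_mul_right h3 (by linarith)
  have h5 : x = p + 1 := by omega
  rw [h5] at E
  have h6 : A + B = p := by nlinarith
  constructor <;> omega

/-- `b₁ = 1`, `b₂ = 0`. -/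
lemma two_10 {p x A B : ℤ} (hp : 3 ≤ p) (hxp : p < x) (hB : 1 ≤ B) (hA : 1 ≤ A)
    (hB2 : 2 * B ≤ x) (hA2 : 2 * A ≤ x) (hx2 : x ≠ 2 * p) (hAo : A = 1 ∨ A % 2 = 0)
    (po : p % 2 = 1) (xe : x % 2 = 0)
    (E : (x - 1) * (p + 1) = p ^ 2 + A * p + B) : False := by
  have h1 : x ≤ 2 * p := by
    by_contra h
    push Not at h
    nlinarith
  have h2 : x < 2 * p := lt_of_le_of_ne h1 hx2
  obtain ⟨t, ht⟩ : ∃ t, t = x - p := ⟨_, rfl⟩
  have hx : x = p + t := by linarith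
  have h3 : (t - A) * p = 1 + B - t := by rw [hx] at E; linarith
  have h4 : t - A = 0 := by
    by_contra h0
    rcases lt_or_gt_of_ne h0 with h | h
    · nlinarith
    · nlinarith
  have h5 : 1 + B - t = 0 := by rw [← h3, h4]; ring
  rcases hAo with h | h <;> omega

/-- `b₁ = b₂ = 1`. -/
lemma two_11 {p x A B y z : ℤ} (hp : 3 ≤ p) (hxp : p < x) (hB : 1 ≤ B)
    (hy : 2 ≤ y) (hA : A = y * B) (hx : x = z * A) (hz : 2 ≤ z) (ye : y % 2 = 0)
    (hBo : B = 1 ∨ B % 2 = 0)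
    (po : p % 2 = 1) (xe : x % 2 = 0)
    (E : (x - 1) * (p + 1) = p ^ 2 + (A + B) * p) : False := by
  have h1 : 2 * B ≤ A := by rw [hA]; nlinarith
  have h2 : 2 * A ≤ x := by rw [hx]; nlinarith
  obtain ⟨v, hv⟩ : ∃ v, v = p + A + B - (x - 1) := ⟨_, rfl⟩
  have hxv : x - 1 = p * v := by rw [hv]; linarith
  have hv1 : 1 ≤ v := by
    by_contra h
    push Not at h
    nlinarith
  have hv4 : v < 4 := by
    by_contra h
    push Not at h
    nlinarith
  have hvo : v = 1 ∨ v = 3 := by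
    have : v ≠ 2 := by
      rintro rfl
      omega
    omega
  rcases hvo with h | h
  · rw [h] at hxv hv
    omega
  · rw [h] at hxv hv
    have hAe : A % 2 = 0 := by rw [hA, Int.mul_emod, ye]; simp
    have hB1 : B = 1 := by
      rcases hBo with h | h
      · exact h
      · omega
    have h5 : A * (3 - 2 * z) = 4 := by
      have : 3 * A = 2 * x + 4 := by omega
      rw [hx] at this
      linarith
    nlinarith

/-- `b₁ = 2`, `b₂ = 0`. -/
lemma two_20 {p x A B W : ℤ} (hp : 3 ≤ p) (po : p % 2 = 1) (hA : 1 ≤ A)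
    (hAo : A = 1 ∨ A % 2 = 0) (hBo : B = 1 ∨ B % 2 = 0)
    (hx2 : x ≠ 2 * p) (xe : x % 2 = 0) (hB2 : 2 * B ≤ x)
    (hW : W = x - p - (p - 1) * A) (hW1 : 1 ≤ W)
    (h2A : 2 * A ≤ p + W)
    (E : (x - 1) * (p + 1) = p ^ 2 * (1 + A) + B) : p = 3 ∧ x = 8 := by
  have h1 : (p + 1) * W = 1 + A + B := by rw [hW]; linarith
  have hx : x = p + W + (p - 1) * A := by rw [hW]; ring
  have hWo : W % 2 = 1 := by
    have h3 : ((p - 1) * A) % 2 = 0 := by
      rw [Int.mul_emod]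
      have : (p - 1) % 2 = 0 := by omega
      rw [this]; simp
    omega
  have hAB : (1 + A + B) % 2 = 0 := by
    rw [← h1, Int.mul_emod]
    have : (p + 1) % 2 = 0 := by omega
    rw [this]; simp
  rcases hAo with h | h
  · exfalso
    rw [h] at h1 hx
    have h3 : B = (p + 1) * W - 2 := by linarith
    have h4 : W = 1 := by
      by_contra h'
      have : 2 ≤ W := by omega
      nlinarith
    rw [h4] at hx
    omega
  · rcases hBo with h' | h'
    · rw [h'] at h1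
      have h3 : A = (p + 1) * W - 2 := by linarith
      have h4 : W = 1 := by
        by_contra h''
        have : 2 ≤ W := by omega
        nlinarith
      rw [h4] at h3 h2A hx
      have h5 : p ≤ 3 := by linarith
      have h6 : p = 3 := by omega
      refine ⟨h6, ?_⟩
      rw [h6] at h3 hx
      rw [hx, h3]; norm_num
    · omega

/-- `b₁ = 2`, `b₂ = 1`. -/
lemma two_21 {p x A B z z' : ℤ} (hp : 3 ≤ p) (po : p % 2 = 1) (hxp : p < x)
    (hA : 1 ≤ A) (hB : 1 ≤ B)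
    (hAo : A = 1 ∨ A % 2 = 0) (hBo : B = 1 ∨ B % 2 = 0)
    (xe : x % 2 = 0) (hxA : x = z * A) (hxB : x = z' * B) (hz' : 2 ≤ z') (hz : p + 1 ≤ z)
    (E : (x - 1) * (p + 1) = p ^ 2 * (1 + A) + B * p) : p = 5 ∧ x = 16 := by
  obtain ⟨u, hu⟩ : ∃ u, u = p * (1 + A) + B - (x - 1) := ⟨_, rfl⟩
  have hxu : x - 1 = p * u := by rw [hu]; linarith
  have hu1 : 1 ≤ u := by
    by_contra h
    push Not at h
    nlinarith
  have huo : u % 2 = 1 := by
    by_contra h
    have h2 : u % 2 = 0 := by omega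
    have h3 : (p * u) % 2 = 0 := by rw [Int.mul_emod, h2]; simp
    omega
  have h1 : u * (p + 1) = p * (1 + A) + B := by
    have : u = p * (1 + A) + B - p * u := by rw [← hxu]; exact hu
    linarith
  rcases hAo with h | h
  · rw [h] at h1
    have hB2 : 2 * B ≤ x := by rw [hxB]; nlinarith
    have h3 : u < 4 := by
      by_contra h'
      push Not at h'
      nlinarith
    have h4 : u = 1 ∨ u = 3 := by omega
    rcases h4 with h4 | h4
    · exfalso
      rw [h4] at h1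
      nlinarith
    · rw [h4] at h1 hxu
      have h5 : B * (3 - z') = 8 := by
        have : 3 * B = x + 8 := by linarith
        rw [hxB] at this
        linarith
      have h6 : z' = 2 := by
        by_contra h'
        have : 3 ≤ z' := by omega
        nlinarith
      rw [h6] at h5
      omega
  · have hpA : (p * (1 + A)) % 2 = 1 := by
      rw [Int.mul_emod, po]
      have : (1 + A) % 2 = 1 := by omega
      rw [this]; norm_num
    have hup : (u * (p + 1)) % 2 = 0 := by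
      rw [Int.mul_emod]
      have : (p + 1) % 2 = 0 := by omega
      rw [this]; simp
    have hB1 : B = 1 := by
      rcases hBo with h' | h'
      · exact h'
      · omega
    exfalso
    rw [hB1] at h1
    have h5 : (u - 1) * (p + 1) = p * A := by linarith
    have h6 : u - 1 = p * (A - (u - 1)) := by linarith
    obtain ⟨j, hj⟩ : ∃ j, j = A - (u - 1) := ⟨_, rfl⟩
    rw [← hj] at h6
    have h7 : A = (p + 1) * j := by linarith
    have h8 : 1 ≤ j := by
      by_contra h'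
      push Not at h'
      nlinarith
    have h9 : x = 1 + p + p ^ 2 * j := by
      have : u = 1 + p * j := by linarith
      rw [this] at hxu
      linarith
    have h10 : (p + 1) * A ≤ x := by rw [hxA]; nlinarith
    rw [h7, h9] at h10
    nlinarith

/-- `b₁ = b₂ = 2`. -/
lemma two_22 {p x A B y z : ℤ} (hp : 3 ≤ p) (po : p % 2 = 1) (hxp : p < x) (hB : 1 ≤ B)
    (hy : 2 ≤ y) (ye : y % 2 = 0) (hA : A = y * B) (hx : x = z * A) (hz : p + 1 ≤ z)
    (hBo : B = 1 ∨ B % 2 = 0) (x4 : x % 4 = 0)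
    (E : (x - 1) * (p + 1) = p ^ 2 * (1 + A + B)) : False := by
  obtain ⟨u, hu⟩ : ∃ u, u = x - p - (p - 1) * (A + B) := ⟨_, rfl⟩
  have h1 : (p + 1) * u = 1 + A + B := by rw [hu]; linarith
  have hxu : x - 1 = p ^ 2 * u := by
    have : (p + 1) * (x - 1) = (p + 1) * (p ^ 2 * u) := by
      rw [mul_comm, E, ← h1]; ring
    exact mul_left_cancel₀ (by linarith) this
  have hA1 : 1 ≤ A := by rw [hA]; nlinarith
  have hAe : A % 2 = 0 := by rw [hA, Int.mul_emod, ye]; simp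
  have hB1 : B = 1 := by
    rcases hBo with h' | h'
    · exact h'
    · have hup : ((p + 1) * u) % 2 = 0 := by
        rw [Int.mul_emod]
        have : (p + 1) % 2 = 0 := by omega
        rw [this]; simp
      omega
  rw [hB1] at h1 hu
  have h3 : (p + 1) * A ≤ x := by rw [hx]; nlinarith
  have hu1 : 1 ≤ u := by
    by_contra h
    push Not at h
    nlinarith
  have h4 : u = 1 := by
    by_contra h'
    have : 2 ≤ u := by omega
    nlinarith
  rw [h4] at hxu
  have hp2 : p ^ 2 % 4 = 1 := by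
    have : p % 4 = 1 ∨ p % 4 = 3 := by omega
    rcases this with h | h <;> simp [pow_two, Int.mul_emod, h]
  omega


/-! ### Exponents. -/

lemma pow_fact {a k : ℕ} (h : a ≤ k) :
    ∃ z : ℤ, (2:ℤ) ^ (k + 1) = z * 2 ^ a ∧ z % 2 = 0 ∧ 2 ≤ z := by
  refine ⟨2 * 2 ^ (k - a), ?_, ?_, ?_⟩
  · have : k + 1 = (k - a) + 1 + a := by omega
    rw [this, pow_add, pow_succ]
    have h2 : k - a + 1 + a - 1 - a = k - a := by omega
    ring
  · simp
  · have : (1:ℤ) ≤ 2 ^ (k - a) := one_le_pow₀ (by norm_num)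
    linarith

lemma pow_fact' {a b : ℕ} (h : b < a) :
    ∃ y : ℤ, (2:ℤ) ^ a = y * 2 ^ b ∧ y % 2 = 0 ∧ 2 ≤ y := by
  obtain ⟨k, rfl⟩ : ∃ k, a = k + 1 := ⟨a - 1, by omega⟩
  exact pow_fact (by omega)

lemma pow_odd (a : ℕ) : (2:ℤ) ^ a = 1 ∨ (2:ℤ) ^ a % 2 = 0 := by
  rcases Nat.eq_zero_or_pos a with h | h
  · left; rw [h, pow_zero]
  · right
    obtain ⟨k, rfl⟩ : ∃ k, a = k + 1 := ⟨a - 1, by omega⟩
    rw [pow_succ]; simp

lemma x_four {k p : ℕ} (hp : 3 ≤ p) (h : (p:ℤ) < 2 ^ (k + 1)) : (2:ℤ) ^ (k + 1) % 4 = 0 := by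
  rcases Nat.eq_zero_or_pos k with h0 | h0
  · exfalso
    rw [h0] at h
    have : (3:ℤ) ≤ p := by exact_mod_cast hp
    norm_num at h
    linarith
  · obtain ⟨j, rfl⟩ : ∃ j, k = j + 1 := ⟨k - 1, by omega⟩
    have : (2:ℤ) ^ (j + 1 + 1) = 4 * 2 ^ j := by ring
    rw [this]; simp

lemma x_gt {p k m : ℕ} {D : ℤ} (hp : 3 ≤ p) (hD : 0 ≤ D)
    (E : (p:ℤ) ^ m * (2 ^ (k + 1) - p) = (2 ^ (k + 1) - 1) + (p - 1) * D) :
    (p:ℤ) < 2 ^ (k + 1) := by
  have hp' : (3:ℤ) ≤ p := by exact_mod_cast hp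
  have h1 : (1:ℤ) ≤ (p:ℤ) ^ m := one_le_pow₀ (by linarith)
  have h2 : (2:ℤ) ≤ 2 ^ (k + 1) := by
    have : (1:ℤ) ≤ 2 ^ k := one_le_pow₀ (by norm_num)
    rw [pow_succ]; linarith
  have h3 : 0 ≤ ((p:ℤ) - 1) * D := mul_nonneg (by linarith) hD
  by_contra h
  push Not at h
  nlinarith

lemma main3 (p k n a₁ b₁ a₂ b₂ : ℕ) (hp : 3 ≤ p) (po : p % 2 = 1) (ha₁ : a₁ ≤ k) (ha₂ : a₂ ≤ k)
    (hb : b₂ ≤ b₁) (hb₁ : b₁ ≤ n + 3) (hlt : b₁ = b₂ → a₂ < a₁)
    (E : (p:ℤ) ^ (n + 3) * (2 ^ (k + 1) - p) =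
      (2 ^ (k + 1) - 1) + (p - 1) * (2 ^ a₁ * p ^ b₁ + 2 ^ a₂ * p ^ b₂)) :
    n = 0 ∧ (2:ℤ) ^ (k + 1) = p + 1 := by
  have hp' : (3:ℤ) ≤ p := by exact_mod_cast hp
  have po' : (p:ℤ) % 2 = 1 := by omega
  have hxp := x_gt hp (by positivity) E
  have hx4 := x_four hp hxp
  obtain ⟨z, hxA, hz, hz2⟩ := pow_fact ha₁
  obtain ⟨z', hxB, hz', hz2'⟩ := pow_fact ha₂
  have hA : (1:ℤ) ≤ 2 ^ a₁ := one_le_pow₀ (by norm_num)
  have hB : (1:ℤ) ≤ 2 ^ a₂ := one_le_pow₀ (by norm_num)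
  have hA2 : 2 * (2:ℤ) ^ a₁ ≤ 2 ^ (k + 1) := by rw [hxA]; nlinarith
  have hB2 : 2 * (2:ℤ) ^ a₂ ≤ 2 ^ (k + 1) := by rw [hxB]; nlinarith
  have hAB : a₂ < a₁ → ∃ y : ℤ, (2:ℤ) ^ a₁ = y * 2 ^ a₂ ∧ y % 2 = 0 ∧ 2 ≤ y := pow_fact'
  have hBA : a₁ < a₂ → ∃ y : ℤ, (2:ℤ) ^ a₂ = y * 2 ^ a₁ ∧ y % 2 = 0 ∧ 2 ≤ y := pow_fact'
  have hABe : a₂ = a₁ → (2:ℤ) ^ a₁ = 1 * 2 ^ a₂ := by rintro rfl; ring
  clear ha₁ ha₂
  generalize (2:ℤ) ^ (k + 1) = x at *
  generalize (2:ℤ) ^ a₁ = A at *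
  generalize (2:ℤ) ^ a₂ = B at *
  generalize (p:ℤ) = P at *
  have hPn : 1 ≤ P ^ n := one_le_pow₀ (by linarith)
  have hPb : ∀ j, 1 ≤ P ^ j := fun j => one_le_pow₀ (by linarith)
  have hPm : ∀ i j, i ≤ j → P ^ i ≤ P ^ j := fun i j h => pow_le_pow_right₀ (by linarith) h
  rcases Nat.lt_or_ge (n + 1) b₁ with h1 | h1
  · rcases Nat.lt_or_ge (n + 2) b₁ with h2 | h2
    · -- b₁ = n + 3
      exfalso
      have hb3 : b₁ = n + 3 := by omega
      subst hb3
      obtain ⟨W, hW⟩ : ∃ W, W = x - P - (P - 1) * A := ⟨_, rfl⟩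
      have E2 : P ^ (n + 3) * W = (x - 1) + (P - 1) * (B * P ^ b₂) := by rw [hW]; linarith
      have hW1 : 1 ≤ W := by
        have : 0 < (P - 1) * (B * P ^ b₂) := by
          apply mul_pos (by linarith)
          apply mul_pos
          · linarith
          · linarith [hPb b₂]
        have h5 := hPb (n + 3)
        by_contra h
        push Not at h
        nlinarith
      rcases Nat.lt_or_ge n b₂ with h3 | h3
      · rcases Nat.lt_or_ge (n + 1) b₂ with h4 | h4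
        · rcases Nat.lt_or_ge (n + 2) b₂ with h5 | h5
          · have hb4 : b₂ = n + 3 := by omega
            subst hb4
            obtain ⟨y, hy, hye, hy2⟩ := hAB (hlt rfl)
            have hM : x - 1 = P ^ (n + 3) * (W - (P - 1) * B) := by linarith
            have hu1 : 1 ≤ W - (P - 1) * B := by
              have := hPb (n + 3)
              by_contra h
              push Not at h
              nlinarith
            exact case_zero hp' po' hB hy2 hy hxA hz hW rfl hu1 hM (hPm 3 (n + 3) (by omega))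
          · have hb4 : b₂ = n + 2 := by omega
            subst hb4
            have hM : x - 1 = P ^ (n + 2) * (P * W - (P - 1) * B) := by
              have : P ^ (n + 3) = P ^ (n + 2) * P := by ring
              rw [this] at E2
              linarith
            have hu1 : 1 ≤ P * W - (P - 1) * B := by
              have := hPb (n + 2)
              by_contra h
              push Not at h
              nlinarith
            have hM2 : P ^ (n + 2) = P ^ 2 ∨ P ^ 3 ≤ P ^ (n + 2) := by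
              rcases Nat.eq_zero_or_pos n with h | h
              · left; rw [h]
              · right; exact hPm 3 (n + 2) (by omega)
            have hpos := one_pos' hp' po' hx4 hW rfl hu1 hM hM2
            rcases lt_trichotomy a₁ a₂ with h | h | h
            · obtain ⟨y, hy, hye, hy2⟩ := hBA h
              exact case_one_b hp' hA hy2 hy hxB hz2' hW rfl hu1 hM hM2 hpos
            · exact case_one_a hp' po' hB le_rfl (hABe h.symm) hxA hz hW rfl hu1 hpos
            · obtain ⟨y, hy, hye, hy2⟩ := hAB h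
              exact case_one_a hp' po' hB (by linarith) hy hxA hz hW rfl hu1 hpos
        · have hb4 : b₂ = n + 1 := by omega
          subst hb4
          refine case_two (Q := P ^ n) hp' po' hA hxA hz hW hW1 hPn hB2 hxp ?_
          have e1 : P ^ (n + 3) = P ^ 3 * P ^ n := by ring
          have e2 : P ^ (n + 1) = P * P ^ n := by ring
          rw [e1, e2] at E2
          exact E2
      · refine case_big (Q := P ^ n) (d := B * P ^ b₂) hp' po' hA hxA hz hW hW1 hPn ?_ hxp ?_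
        · calc 2 * (B * P ^ b₂) = (2 * B) * P ^ b₂ := by ring
            _ ≤ x * P ^ b₂ := mul_le_mul_of_nonneg_right hB2 (by linarith [hPb b₂])
            _ ≤ x * P ^ n := mul_le_mul_of_nonneg_left (hPm _ _ h3) (by linarith)
        · have e1 : P ^ (n + 3) = P ^ 3 * P ^ n := by ring
          rw [e1] at E2
          exact E2
    · -- b₁ = n + 2
      have hb3 : b₁ = n + 2 := by omega
      subst hb3
      rcases Nat.lt_or_ge (n + 1) b₂ with h3 | h3
      · exfalso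
        have hb4 : b₂ = n + 2 := by omega
        subst hb4
        obtain ⟨y, hy, hye, hy2⟩ := hAB (hlt rfl)
        have hBA' : B < A := by rw [hy]; nlinarith
        refine case_mid (M := P ^ (n + 2)) hp' hxp (hPm 2 (n + 2) (by omega))
          (by linarith : A + B ≤ x - 1) ?_
        have e1 : P ^ (n + 3) = P * P ^ (n + 2) := by ring
        rw [e1] at E
        linarith
      · exact case_c2b hp' hxp hA hB hA2 hB2 h3 E
  · -- b₁ ≤ n + 1
    exfalso
    refine case_small (N := P ^ (n + 1)) (D := A * P ^ b₁ + B * P ^ b₂) hp' hxp ?_ ?_ ?_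
    · have := hPm 1 (n + 1) (by omega)
      simpa using this
    · have d1 : 2 * (A * P ^ b₁) ≤ x * P ^ (n + 1) := by
        calc 2 * (A * P ^ b₁) = (2 * A) * P ^ b₁ := by ring
          _ ≤ x * P ^ b₁ := mul_le_mul_of_nonneg_right hA2 (by linarith [hPb b₁])
          _ ≤ x * P ^ (n + 1) := mul_le_mul_of_nonneg_left (hPm _ _ h1) (by linarith)
      have d2 : 2 * (B * P ^ b₂) < x * P ^ (n + 1) := by
        rcases Nat.lt_or_ge b₂ b₁ with h | h
        · calc 2 * (B * P ^ b₂) = (2 * B) * P ^ b₂ := by ring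
            _ ≤ x * P ^ b₂ := mul_le_mul_of_nonneg_right hB2 (by linarith [hPb b₂])
            _ < x * P ^ (n + 1) := by
              apply mul_lt_mul_of_pos_left _ (by linarith)
              exact pow_lt_pow_right₀ (by linarith) (by omega)
        · have hbb : b₁ = b₂ := by omega
          obtain ⟨y, hy, hye, hy2⟩ := hAB (hlt hbb)
          have hBA' : B < A := by rw [hy]; nlinarith
          have h5 : B * P ^ b₂ < A * P ^ b₁ := by
            rw [← hbb]
            exact mul_lt_mul_of_pos_right hBA' (by linarith [hPb b₁])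
          linarith
      linarith
    · have e1 : P ^ (n + 3) = P ^ 2 * P ^ (n + 1) := by ring
      rw [e1] at E
      exact E

lemma main2 (p k a₁ b₁ a₂ b₂ : ℕ) (hp : 3 ≤ p) (po : p % 2 = 1) (ha₁ : a₁ ≤ k) (ha₂ : a₂ ≤ k)
    (hb : b₂ ≤ b₁) (hb₁ : b₁ ≤ 2) (hlt : b₁ = b₂ → a₂ < a₁)
    (E : (p:ℤ) ^ 2 * (2 ^ (k + 1) - p) =
      (2 ^ (k + 1) - 1) + (p - 1) * (2 ^ a₁ * p ^ b₁ + 2 ^ a₂ * p ^ b₂)) :
    ((p:ℤ) = 3 ∧ (2:ℤ) ^ (k + 1) = 4) ∨ ((p:ℤ) = 3 ∧ (2:ℤ) ^ (k + 1) = 8) ∨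
      ((p:ℤ) = 5 ∧ (2:ℤ) ^ (k + 1) = 16) := by
  have hp' : (3:ℤ) ≤ p := by exact_mod_cast hp
  have po' : (p:ℤ) % 2 = 1 := by omega
  have hxp := x_gt hp (by positivity) E
  have hx4 := x_four hp hxp
  obtain ⟨z, hxA, hz, hz2⟩ := pow_fact ha₁
  obtain ⟨z', hxB, hz', hz2'⟩ := pow_fact ha₂
  have hA : (1:ℤ) ≤ 2 ^ a₁ := one_le_pow₀ (by norm_num)
  have hB : (1:ℤ) ≤ 2 ^ a₂ := one_le_pow₀ (by norm_num)
  have hA2 : 2 * (2:ℤ) ^ a₁ ≤ 2 ^ (k + 1) := by rw [hxA]; nlinarith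
  have hB2 : 2 * (2:ℤ) ^ a₂ ≤ 2 ^ (k + 1) := by rw [hxB]; nlinarith
  have hAB : a₂ < a₁ → ∃ y : ℤ, (2:ℤ) ^ a₁ = y * 2 ^ a₂ ∧ y % 2 = 0 ∧ 2 ≤ y := pow_fact'
  have hAo := pow_odd a₁
  have hBo := pow_odd a₂
  clear ha₁ ha₂
  generalize (2:ℤ) ^ (k + 1) = x at *
  generalize (2:ℤ) ^ a₁ = A at *
  generalize (2:ℤ) ^ a₂ = B at *
  generalize (p:ℤ) = P at *
  have hx2p : x ≠ 2 * P := by omega
  have xe : x % 2 = 0 := by omega
  have E2 : (x - 1) * (P + 1) = P ^ 2 + (A * P ^ b₁ + B * P ^ b₂) := by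
    have : (P - 1) * ((x - 1) * (P + 1)) = (P - 1) * (P ^ 2 + (A * P ^ b₁ + B * P ^ b₂)) := by
      linarith
    exact mul_left_cancel₀ (by linarith) this
  interval_cases b₁
  · have hb0 : b₂ = 0 := by omega
    subst hb0
    obtain ⟨y, hy, hye, hy2⟩ := hAB (hlt rfl)
    left
    refine two_00 hp' hxp hB hy2 hy hxA hz2 ?_
    simp only [pow_zero, mul_one] at E2
    linarith
  · interval_cases b₂
    · exfalso
      refine two_10 hp' hxp hB hA hB2 hA2 hx2p hAo po' xe ?_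
      simp only [pow_zero, mul_one, pow_one] at E2
      linarith
    · exfalso
      obtain ⟨y, hy, hye, hy2⟩ := hAB (hlt rfl)
      refine two_11 hp' hxp hB hy2 hy hxA hz2 hye hBo po' xe ?_
      simp only [pow_one] at E2
      linarith
  · obtain ⟨W, hW⟩ : ∃ W, W = x - P - (P - 1) * A := ⟨_, rfl⟩
    have hE3 : P ^ 2 * W = (x - 1) + (P - 1) * (B * P ^ b₂) := by rw [hW]; linarith
    have hW1 : 1 ≤ W := by
      have h4 : 1 ≤ P ^ b₂ := one_le_pow₀ (by linarith)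
      have : 0 < (P - 1) * (B * P ^ b₂) := by
        apply mul_pos (by linarith)
        apply mul_pos <;> linarith
      by_contra h
      push Not at h
      nlinarith
    have h2A := (two_x hp' po' hA hxA hz hW hW1).2
    have hzp : P + 1 ≤ z := z_ge po' hA hxA hz (by linarith)
    interval_cases b₂
    · right; left
      refine two_20 hp' po' hA hAo hBo hx2p xe hB2 hW hW1 h2A ?_
      simp only [pow_zero, mul_one] at E2
      linarith
    · right; right
      refine two_21 hp' po' hxp hA hB hAo hBo xe hxA hxB hz2' hzp ?_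
      simp only [pow_one] at E2
      linarith
    · exfalso
      obtain ⟨y, hy, hye, hy2⟩ := hAB (hlt rfl)
      refine two_22 hp' po' hxp hB hy2 hye hy hxA hzp hBo hx4 ?_
      linarith

/-! ### The classification in terms of divisor sums. -/

/-- `n` is 2-near perfect: `n ≥ 1` and `σ(n) = 2 n + d₁ + d₂` for two distinct divisors
`d₁, d₂` of `n`. -/
def IsTwoNearPerfect (n : ℕ) : Prop :=
  0 < n ∧ ∃ d₁ d₂ : ℕ, d₁ ∣ n ∧ d₂ ∣ n ∧ d₁ ≠ d₂ ∧ ∑ d ∈ n.divisors, d = 2 * n + d₁ + d₂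

/-- The 2-near perfect numbers of the form `2 ^ k * p ^ m` with `p` prime, `k ≥ 0`, `m ≥ 2`. -/
def S : Set ℕ :=
  {n | IsTwoNearPerfect n ∧ ∃ p k m : ℕ, p.Prime ∧ 2 ≤ m ∧ n = 2 ^ k * p ^ m}

lemma sum_div (p k m : ℕ) (hp : p.Prime) (hp2 : p ≠ 2) :
    ∑ d ∈ (2 ^ k * p ^ m).divisors, d =
      (∑ i ∈ Finset.range (k + 1), 2 ^ i) * ∑ i ∈ Finset.range (m + 1), p ^ i := by
  have hc : Nat.Coprime (2 ^ k) (p ^ m) := by
    apply Nat.Coprime.pow
    exact (Nat.coprime_primes Nat.prime_two hp).2 (Ne.symm hp2)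
  rw [Nat.Coprime.sum_divisors_mul hc, Nat.sum_divisors_prime_pow Nat.prime_two,
    Nat.sum_divisors_prime_pow hp]

lemma dvd_form {p k m d : ℕ} (hp : p.Prime) (h : d ∣ 2 ^ k * p ^ m) :
    ∃ a b, a ≤ k ∧ b ≤ m ∧ d = 2 ^ a * p ^ b := by
  obtain ⟨u, v, hu, hv, rfl⟩ := (Nat.dvd_mul).1 h
  obtain ⟨a, ha, rfl⟩ := (Nat.dvd_prime_pow Nat.prime_two).1 hu
  obtain ⟨b, hb, rfl⟩ := (Nat.dvd_prime_pow hp).1 hv
  exact ⟨a, b, ha, hb, rfl⟩

lemma geom_two (k : ℕ) : ((∑ i ∈ Finset.range (k + 1), 2 ^ i : ℕ) : ℤ) = 2 ^ (k + 1) - 1 := by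
  have h := geom_sum_mul (2:ℤ) (k + 1)
  push_cast
  linarith

lemma geom_p (p m : ℕ) : ((∑ i ∈ Finset.range (m + 1), p ^ i : ℕ) : ℤ) * (p - 1) =
    p ^ (m + 1) - 1 := by
  have h := geom_sum_mul (p:ℤ) (m + 1)
  push_cast
  linarith

lemma master {p k m a₁ b₁ a₂ b₂ : ℕ} (hp : p.Prime) (hp2 : p ≠ 2)
    (h : ∑ d ∈ (2 ^ k * p ^ m).divisors, d =
      2 * (2 ^ k * p ^ m) + 2 ^ a₁ * p ^ b₁ + 2 ^ a₂ * p ^ b₂) :
    (p:ℤ) ^ m * (2 ^ (k + 1) - p) =
      (2 ^ (k + 1) - 1) + (p - 1) * (2 ^ a₁ * p ^ b₁ + 2 ^ a₂ * p ^ b₂) := by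
  rw [sum_div p k m hp hp2] at h
  have h1 : ((∑ i ∈ Finset.range (k + 1), 2 ^ i : ℕ) : ℤ) *
      ((∑ i ∈ Finset.range (m + 1), p ^ i : ℕ) : ℤ) =
      2 * (2 ^ k * p ^ m) + 2 ^ a₁ * p ^ b₁ + 2 ^ a₂ * p ^ b₂ := by exact_mod_cast h
  have h2 := geom_p p m
  rw [geom_two] at h1
  have h3 : ((2:ℤ) ^ (k + 1) - 1) * (p ^ (m + 1) - 1) =
      (p - 1) * (2 * (2 ^ k * p ^ m) + 2 ^ a₁ * p ^ b₁ + 2 ^ a₂ * p ^ b₂) := by
    rw [← h2, ← h1]; ring
  have e1 : (2:ℤ) ^ (k + 1) = 2 * 2 ^ k := by ring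
  have e2 : (p:ℤ) ^ (m + 1) = p * p ^ m := by ring
  rw [e1] at h3 ⊢
  rw [e2] at h3
  linarith

lemma classify_aux {p k m a₁ b₁ a₂ b₂ : ℕ} (hp : p.Prime) (hp2 : p ≠ 2) (hm : 2 ≤ m)
    (ha₁ : a₁ ≤ k) (ha₂ : a₂ ≤ k) (hb : b₂ ≤ b₁) (hb₁ : b₁ ≤ m) (hlt : b₁ = b₂ → a₂ < a₁)
    (E : (p:ℤ) ^ m * (2 ^ (k + 1) - p) =
      (2 ^ (k + 1) - 1) + (p - 1) * (2 ^ a₁ * p ^ b₁ + 2 ^ a₂ * p ^ b₂)) :
    2 ^ k * p ^ m = 18 ∨ 2 ^ k * p ^ m = 36 ∨ 2 ^ k * p ^ m = 200 ∨
      (m = 3 ∧ p + 1 = 2 ^ (k + 1)) := by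
  have hp3 : 3 ≤ p := by
    have := hp.two_le
    omega
  have po : p % 2 = 1 := by
    rcases hp.eq_two_or_odd with h | h
    · exact absurd h hp2
    · exact h
  rcases Nat.lt_or_ge 2 m with h | h
  · obtain ⟨n, rfl⟩ : ∃ n, m = n + 3 := ⟨m - 3, by omega⟩
    obtain ⟨hn, hx⟩ := main3 p k n a₁ b₁ a₂ b₂ hp3 po ha₁ ha₂ hb hb₁ hlt E
    right; right; right
    refine ⟨by omega, ?_⟩
    have : (2:ℤ) ^ (k + 1) = ((p + 1 : ℕ) : ℤ) := by rw [hx]; push_cast; ring
    exact_mod_cast this.symm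
  · have hm2 : m = 2 := by omega
    subst hm2
    have e1 : (2:ℤ) ^ (k + 1) = 2 * 2 ^ k := by ring
    rcases main2 p k a₁ b₁ a₂ b₂ hp3 po ha₁ ha₂ hb hb₁ hlt E with ⟨h1, h2⟩ | ⟨h1, h2⟩ | ⟨h1, h2⟩
    · left
      have h3 : p = 3 := by exact_mod_cast h1
      have h4 : (2:ℤ) ^ k = 2 := by linarith
      have h5 : 2 ^ k = 2 := by exact_mod_cast h4
      rw [h5, h3]; norm_num
    · right; left
      have h3 : p = 3 := by exact_mod_cast h1
      have h4 : (2:ℤ) ^ k = 4 := by linarith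
      have h5 : 2 ^ k = 4 := by exact_mod_cast h4
      rw [h5, h3]; norm_num
    · right; right; left
      have h3 : p = 5 := by exact_mod_cast h1
      have h4 : (2:ℤ) ^ k = 8 := by linarith
      have h5 : 2 ^ k = 8 := by exact_mod_cast h4
      rw [h5, h3]; norm_num

lemma classify {p k m d₁ d₂ : ℕ} (hp : p.Prime) (hm : 2 ≤ m)
    (h1 : d₁ ∣ 2 ^ k * p ^ m) (h2 : d₂ ∣ 2 ^ k * p ^ m) (hne : d₁ ≠ d₂)
    (h : ∑ d ∈ (2 ^ k * p ^ m).divisors, d = 2 * (2 ^ k * p ^ m) + d₁ + d₂) :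
    2 ^ k * p ^ m = 18 ∨ 2 ^ k * p ^ m = 36 ∨ 2 ^ k * p ^ m = 200 ∨
      (m = 3 ∧ p + 1 = 2 ^ (k + 1)) := by
  by_cases hp2 : p = 2
  · exfalso
    subst hp2
    have e : 2 ^ k * 2 ^ m = 2 ^ (k + m) := by ring
    rw [e, Nat.sum_divisors_prime_pow Nat.prime_two] at h
    have h3 := geom_two (k + m)
    have h4 : ((∑ i ∈ Finset.range (k + m + 1), 2 ^ i : ℕ) : ℤ) =
        2 * 2 ^ (k + m) + d₁ + d₂ := by exact_mod_cast h
    rw [h3] at h4
    have e1 : (2:ℤ) ^ (k + m + 1) = 2 * 2 ^ (k + m) := by ring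
    rw [e1] at h4
    have : (0:ℤ) ≤ d₁ := by positivity
    have : (0:ℤ) ≤ d₂ := by positivity
    linarith
  · obtain ⟨a₁, b₁, ha₁, hb₁, rfl⟩ := dvd_form hp h1
    obtain ⟨a₂, b₂, ha₂, hb₂, rfl⟩ := dvd_form hp h2
    rcases lt_trichotomy b₁ b₂ with hb | hb | hb
    · have E := master hp hp2 (a₁ := a₂) (b₁ := b₂) (a₂ := a₁) (b₂ := b₁) (by rw [h]; ring)
      exact classify_aux hp hp2 hm ha₂ ha₁ hb.le hb₂ (by omega) E
    · subst hb
      rcases lt_trichotomy a₁ a₂ with ha | ha | ha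
      · have E := master hp hp2 (a₁ := a₂) (b₁ := b₁) (a₂ := a₁) (b₂ := b₁) (by rw [h]; ring)
        exact classify_aux hp hp2 hm ha₂ ha₁ le_rfl hb₂ (fun _ => ha) E
      · exact absurd (by rw [ha]) hne
      · exact classify_aux hp hp2 hm ha₁ ha₂ le_rfl hb₂ (fun _ => ha) (master hp hp2 h)
    · exact classify_aux hp hp2 hm ha₁ ha₂ hb.le hb₁ (by omega) (master hp hp2 h)

/-- The family given by Mersenne primes. -/
lemma mersenne_mem {p k : ℕ} (hp : p.Prime) (h : p + 1 = 2 ^ (k + 1)) : 2 ^ k * p ^ 3 ∈ S := by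
  have hp2 : p ≠ 2 := by
    rintro rfl
    rw [pow_succ] at h
    omega
  refine ⟨⟨by have := hp.pos; positivity, p, p ^ 2, ?_, ?_, ?_, ?_⟩, p, k, 3, hp, by norm_num, rfl⟩
  · exact Dvd.dvd.mul_left (dvd_pow_self p (by norm_num)) _
  · exact Dvd.dvd.mul_left (pow_dvd_pow p (by norm_num)) _
  · have := hp.two_le
    intro h'
    nlinarith
  · rw [sum_div p k 3 hp hp2]
    have h1 := geom_two k
    have h2 : (2:ℤ) ^ (k + 1) = p + 1 := by exact_mod_cast h.symm
    rw [h2] at h1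
    have h3 : ∑ i ∈ Finset.range (k + 1), 2 ^ i = p := by
      have : ((∑ i ∈ Finset.range (k + 1), 2 ^ i : ℕ) : ℤ) = (p : ℤ) := by rw [h1]; ring
      exact_mod_cast this
    rw [h3]
    have h4 : 2 * 2 ^ k = p + 1 := by rw [h]; ring
    have h5 : 2 * (2 ^ k * p ^ 3) = (p + 1) * p ^ 3 := by rw [← h4]; ring
    rw [h5]
    simp only [Finset.sum_range_succ, Finset.sum_range_zero]
    ring

lemma mem_iff (n : ℕ) : n ∈ S ↔ n = 18 ∨ n = 36 ∨ n = 200 ∨
    ∃ p k : ℕ, p.Prime ∧ p + 1 = 2 ^ (k + 1) ∧ n = 2 ^ k * p ^ 3 := by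
  constructor
  · rintro ⟨⟨_, d₁, d₂, h1, h2, hne, h⟩, p, k, m, hp, hm, rfl⟩
    rcases classify hp hm h1 h2 hne h with h' | h' | h' | ⟨h', h''⟩
    · exact Or.inl h'
    · exact Or.inr (Or.inl h')
    · exact Or.inr (Or.inr (Or.inl h'))
    · subst h'
      exact Or.inr (Or.inr (Or.inr ⟨p, k, hp, h'', rfl⟩))
  · rintro (rfl | rfl | rfl | ⟨p, k, hp, h, rfl⟩)
    · exact ⟨⟨by norm_num, 1, 2, by norm_num, by norm_num, by norm_num, by decide +kernel⟩,
        3, 1, 2, Nat.prime_three, le_rfl, by norm_num⟩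
    · exact ⟨⟨by norm_num, 18, 1, by norm_num, by norm_num, by norm_num, by decide +kernel⟩,
        3, 2, 2, Nat.prime_three, le_rfl, by norm_num⟩
    · exact ⟨⟨by norm_num, 40, 25, by norm_num, by norm_num, by norm_num, by decide +kernel⟩,
        5, 3, 2, Nat.prime_five, le_rfl, by norm_num⟩
    · exact mersenne_mem hp h

/-- The 2-near perfect numbers `2 ^ k * p ^ m` (`p` prime, `m ≥ 2`) are exactly `18`, `36`, `200`
and the numbers `2 ^ k * p ^ 3` with `p = 2 ^ (k + 1) - 1` a Mersenne prime.  Consequently there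
are only finitely many of them if and only if there are only finitely many Mersenne primes. -/
theorem result :
    (∀ n : ℕ, n ∈ S ↔ n = 18 ∨ n = 36 ∨ n = 200 ∨
      ∃ p k : ℕ, p.Prime ∧ p + 1 = 2 ^ (k + 1) ∧ n = 2 ^ k * p ^ 3) ∧
    (S.Finite ↔ {p : ℕ | p.Prime ∧ ∃ q : ℕ, p + 1 = 2 ^ q}.Finite) := by
  refine ⟨mem_iff, ?_, ?_⟩
  · intro hS
    obtain ⟨N, hN⟩ := hS.bddAbove
    apply (Set.finite_Iic N).subset
    rintro p ⟨hp, q, hq⟩
    have hq0 : q ≠ 0 := by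
      rintro rfl
      have := hp.two_le
      simp at hq
      omega
    obtain ⟨k, rfl⟩ : ∃ k, q = k + 1 := ⟨q - 1, by omega⟩
    have h1 := hN (mersenne_mem hp hq)
    have h2 : p ≤ 2 ^ k * p ^ 3 := by
      calc p = 1 * p ^ 1 := by ring
        _ ≤ 2 ^ k * p ^ 3 := Nat.mul_le_mul Nat.one_le_two_pow
          (Nat.pow_le_pow_right hp.pos (by norm_num))
    exact le_trans h2 h1
  · intro hM
    have h1 : S ⊆ {18, 36, 200} ∪ (fun p : ℕ => ((p + 1) / 2) * p ^ 3) ''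
        {p : ℕ | p.Prime ∧ ∃ q : ℕ, p + 1 = 2 ^ q} := by
      intro n hn
      rcases (mem_iff n).1 hn with h | h | h | ⟨p, k, hp, h, h'⟩
      · left; simp [h]
      · left; simp [h]
      · left; simp [h]
      · right
        refine ⟨p, ⟨hp, k + 1, h⟩, ?_⟩
        have : (p + 1) / 2 = 2 ^ k := by
          rw [h, pow_succ]; simp
        simp only [this]
        exact h'.symm
    exact (((Set.finite_singleton 200).insert 36).insert 18 |>.union (hM.image _)).subset h1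

end Pool.Agent.Results.MP_d695ac_nt.Classification
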